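import Mathlib
import Pool.Agent.U272.Circ.Constr

/-!
The minimum number of circles determined by `n` points of the plane which are neither collinear nor
concyclic is `choose (n-1) 2 + 1 - (n-1)/2` for every `n ≥ 15`.
-/

namespace Pool.Agent.Results.MP_1f1ca1_co.MinCirclesFrom15

open Pool.Agent.U272.Circ

/-- For every `n ≥ 15`, the least number of circles determined by an admissible set of `n` points
of the plane (not all on a line, not all on a circle) is `choose (n-1) 2 + 1 - floor ((n-1)/2)`. -/
theorem result (n : ℕ) (hn : 15 ≤ n) :
    IsLeast {k : ℕ | ∃ P : Finset E2, P.card = n ∧ Admissible P ∧ numCircles P = k}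
      ((n - 1).choose 2 + 1 - (n - 1) / 2) :=
  min_circles hn

end Pool.Agent.Results.MP_1f1ca1_co.MinCirclesFrom15
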